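import Mathlib

namespace Pool.Agent.Results.MP_654fb7_co.FD
open Finset Filter Topology

/-- `Q_n^{1,k}`: singletons and `k`-subsets of an `n`-set, ordered by inclusion -/
abbrev Q (n k : ℕ) : Type := {S : Finset (Fin n) // S.card = 1 ∨ S.card = k}

/-- the fractional `t`-dimension: the least total weight of a weighting of the monotone total
maps `P → Fin t` in which every pair `x ≱ y` has weight at least `1` on maps with `f x < f y` -/
noncomputable def fdim (t : ℕ) (P : Type) [Fintype P] [DecidableEq P] [PartialOrder P] : ℝ :=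
  sInf {W | ∃ w : (P → Fin t) → ℝ, (∀ f, 0 ≤ w f) ∧ (∀ f, ¬ Monotone f → w f = 0) ∧
    (∀ x y : P, ¬ y ≤ x → 1 ≤ ∑ f ∈ univ.filter (fun f : P → Fin t => f x < f y), w f) ∧
    W = ∑ f, w f}

/-- `m k 0 = 0` and `m k (s+1) = k^k / ((k+1)^(k+1) (1 - m k s)^k)` -/
noncomputable def m (k : ℕ) : ℕ → ℝ
  | 0 => 0
  | s + 1 => (k : ℝ) ^ k / ((k + 1) ^ (k + 1) * (1 - m k s) ^ k)

lemma m_bd (k : ℕ) (hk : 1 ≤ k) : ∀ s, 0 ≤ m k s ∧ (k : ℝ) / (k + 1) ≤ 1 - m k s
  | 0 => by
    have : (0 : ℝ) < k + 1 := by positivity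
    simp only [m, le_refl, sub_zero, true_and]
    rw [div_le_one this]; linarith
  | s + 1 => by
    obtain ⟨-, h⟩ := m_bd k hk s
    have k0 : (0 : ℝ) < k := by exact_mod_cast hk
    have p : (0 : ℝ) < k / (k + 1) := by positivity
    have c0 : 0 < 1 - m k s := by linarith
    refine ⟨by simp only [m]; positivity, ?_⟩
    have h1 : m k (s + 1) ≤ (k : ℝ) ^ k / ((k + 1) ^ (k + 1) * (k / (k + 1)) ^ k) := by
      simp only [m]; gcongr
    have h2 : (k : ℝ) ^ k / ((k + 1) ^ (k + 1) * (k / (k + 1)) ^ k) = 1 - k / (k + 1) := by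
      rw [div_pow]; field_simp; ring
    linarith

lemma m_pos (k : ℕ) (hk : 1 ≤ k) (s : ℕ) : 0 < m k (s + 1) := by
  have k0 : (0 : ℝ) < k := by exact_mod_cast hk
  have : 0 < 1 - m k s := lt_of_lt_of_le (by positivity) (m_bd k hk s).2
  simp only [m]; positivity

lemma tangent (k : ℕ) (a u : ℝ) (ha : 0 ≤ a) (hu : 0 ≤ u) :
    u ^ k * ((k + 1) * a - k * u) ≤ a ^ (k + 1) := by
  induction k with
  | zero => simp
  | succ k ih =>
    have h1 := mul_le_mul_of_nonneg_left ih ha
    have h2 : 0 ≤ ((k : ℝ) + 1) * u ^ k * (a - u) ^ 2 := by positivity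
    push_cast
    have e1 : a ^ (k + 1 + 1) = a * a ^ (k + 1) := by ring
    have e2 : u ^ (k + 1) = u ^ k * u := by ring
    rw [e1, e2]
    nlinarith

lemma step (k : ℕ) (hk : 1 ≤ k) (s : ℕ) (x y : ℝ) (hx : 0 ≤ x) (hy : 0 ≤ y) :
    m k s * x ^ (k + 1) + (y - x) * x ^ k ≤ m k (s + 1) * y ^ (k + 1) := by
  have k0 : (0 : ℝ) < k := by exact_mod_cast hk
  have c0 : 0 < 1 - m k s := lt_of_lt_of_le (by positivity) (m_bd k hk s).2
  simp only [m]
  generalize m k s = M at *
  have t := tangent k (k * y / (k + 1)) ((1 - M) * x) (by positivity) (by positivity)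
  have e1 : M * x ^ (k + 1) + (y - x) * x ^ k = (((1 - M) * x) ^ k *
      ((k + 1) * (k * y / (k + 1)) - k * ((1 - M) * x))) / (k * (1 - M) ^ k) := by
    rw [mul_pow]; field_simp; ring
  have e2 : (k : ℝ) ^ k / ((k + 1) ^ (k + 1) * (1 - M) ^ k) * y ^ (k + 1)
      = (k * y / (k + 1)) ^ (k + 1) / (k * (1 - M) ^ k) := by
    rw [div_pow, mul_pow]; field_simp; ring
  rw [e1, e2]
  gcongr

lemma levels (k : ℕ) (hk : 1 ≤ k) {n : ℕ} (g : Fin n → ℕ) (s : ℕ) :
    ∑ i ∈ univ.filter (fun i => g i < s + 1), (((univ.filter (fun j => g j < g i)).card : ℝ)) ^ k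
      ≤ m k s * ((univ.filter (fun j => g j < s + 1)).card : ℝ) ^ (k + 1) := by
  induction s with
  | zero =>
    simp only [m, zero_mul]
    refine (sum_eq_zero fun i hi => ?_).le
    have : g i = 0 := by have := (mem_filter.1 hi).2; omega
    simp [this, show k ≠ 0 by omega]
  | succ s ih =>
    have e : univ.filter (fun i => g i < s + 1 + 1)
        = univ.filter (fun i => g i < s + 1) ∪ univ.filter (fun i => g i = s + 1) := by
      ext i; simp only [mem_filter, mem_univ, true_and, mem_union]; omega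
    have d : Disjoint (univ.filter (fun i => g i < s + 1)) (univ.filter (fun i => g i = s + 1)) := by
      rw [disjoint_filter]; intro i _ h; omega
    refine le_trans ?_ (step k hk s ((univ.filter (fun j => g j < s + 1)).card : ℝ) _
      (by positivity) (by positivity))
    rw [e, sum_union d, card_union_of_disjoint d]
    refine add_le_add ih (le_of_eq ?_)
    rw [sum_congr rfl (fun i hi => by rw [(mem_filter.1 hi).2]), sum_const, nsmul_eq_mul]
    push_cast; ring

lemma probs (k : ℕ) (hk : 1 ≤ k) (s : ℕ) : ∃ p : ℕ → ℝ, (∀ a, 0 ≤ p a) ∧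
    ∑ a ∈ range (s + 1), p a = 1 ∧ ∑ a ∈ range (s + 1), p a * (∑ b ∈ range a, p b) ^ k = m k s := by
  induction s with
  | zero => exact ⟨fun _ => 1, fun _ => zero_le_one, by simp, by simp [m, show k ≠ 0 by omega]⟩
  | succ s ih =>
    obtain ⟨p, p0, p1, p2⟩ := ih
    have k0 : (0 : ℝ) < k := by exact_mod_cast hk
    have b := (m_bd k hk s).2
    have c0 : 0 < 1 - m k s := lt_of_lt_of_le (by positivity) b
    set x : ℝ := k / (k + 1) / (1 - m k s) with hx
    have x0 : 0 ≤ x := by positivity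
    have x1 : x ≤ 1 := (div_le_one c0).2 b
    have e : ∀ a ≤ s + 1, ∑ b ∈ range a, (if b ≤ s then x * p b else 1 - x) = x * ∑ b ∈ range a, p b := by
      intro a ha
      rw [mul_sum]
      exact sum_congr rfl fun b hb => if_pos (by have := mem_range.1 hb; omega)
    refine ⟨fun a => if a ≤ s then x * p a else 1 - x, fun a => ?_, ?_, ?_⟩
    · beta_reduce
      split_ifs
      · exact mul_nonneg x0 (p0 a)
      · linarith
    · rw [sum_range_succ, e _ le_rfl, p1, if_neg (by omega)]; ring
    · beta_reduce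
      rw [sum_range_succ, e _ le_rfl, p1, if_neg (by omega)]
      have : ∑ a ∈ range (s + 1), (if a ≤ s then x * p a else 1 - x) *
          (∑ b ∈ range a, (if b ≤ s then x * p b else 1 - x)) ^ k = x ^ (k + 1) * m k s := by
        rw [← p2, mul_sum]
        refine sum_congr rfl fun a ha => ?_
        have := mem_range.1 ha
        rw [e a (by omega), if_pos (by omega), mul_pow]; ring
      rw [this, hx]
      simp only [m, mul_one, pow_succ, div_pow]
      field_simp
      ring

lemma prob_event {n t : ℕ} (p : Fin t → ℝ) (p1 : ∑ a, p a = 1) (S : Finset (Fin n)) (i : Fin n)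
    (hi : i ∉ S) :
    ∑ g ∈ univ.filter (fun g : Fin n → Fin t => ∀ j ∈ S, g j < g i), ∏ j, p (g j)
      = ∑ a, p a * (∑ b ∈ univ.filter (fun b => b < a), p b) ^ S.card := by
  rw [← sum_fiberwise (s := univ.filter (fun g : Fin n → Fin t => ∀ j ∈ S, g j < g i)) (fun g => g i)]
  refine sum_congr rfl fun a _ => ?_
  have e : (univ.filter (fun g : Fin n → Fin t => ∀ j ∈ S, g j < g i)).filter (fun g => g i = a)
      = Fintype.piFinset (fun j => if j = i then {a} else if j ∈ S then univ.filter (fun b => b < a)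
        else univ) := by
    ext g
    simp only [mem_filter, mem_univ, true_and, Fintype.mem_piFinset]
    constructor
    · rintro ⟨h1, rfl⟩ j
      split_ifs with h2 h3
      · simp [h2]
      · simpa using h1 j h3
      · simp
    · intro h
      have hi' : g i = a := by simpa using h i
      refine ⟨fun j hj => ?_, hi'⟩
      have := h j
      rw [if_neg (by rintro rfl; exact hi hj), if_pos hj] at this
      rw [hi']; simpa using this
  rw [e, ← prod_univ_sum, ← mul_prod_erase _ _ (mem_univ i), if_pos rfl, sum_singleton]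
  congr 1
  rw [← prod_const]
  symm
  refine prod_subset_one_on_sdiff (fun j hj => mem_erase.2 ⟨by rintro rfl; exact hi hj, mem_univ _⟩)
    (fun j hj => ?_) (fun j hj => ?_)
  · obtain ⟨h1, h2⟩ := mem_sdiff.1 hj
    rw [if_neg (mem_erase.1 h1).1, if_neg h2, p1]
  · rw [if_neg (by rintro rfl; exact hi hj), if_pos hj]

lemma upper (s k n : ℕ) (hk : 1 ≤ k) (hn : k < n) : ∃ w : (Q n k → Fin (s + 2)) → ℝ,
    (∀ f, 0 ≤ w f) ∧ (∀ f, ¬ Monotone f → w f = 0) ∧
    (∀ x y : Q n k, ¬ y ≤ x →
      1 ≤ ∑ f ∈ univ.filter (fun f : Q n k → Fin (s + 2) => f x < f y), w f) ∧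
    1 / m k (s + 1) = ∑ f, w f := by
  obtain ⟨p, p0, p1, p2⟩ := probs k hk (s + 1)
  have mp := m_pos k hk s
  let F : (Fin n → Fin (s + 2)) → Q n k → Fin (s + 2) := fun g x => x.1.sup g
  let π : (Fin n → Fin (s + 2)) → ℝ := fun g => ∏ j, p (g j)
  have π0 : ∀ g, 0 ≤ π g := fun g => prod_nonneg fun j _ => p0 _
  have p1' : ∑ a : Fin (s + 2), p a = 1 := by rw [Fin.sum_univ_eq_sum_range p, p1]
  refine ⟨fun f => (∑ g ∈ univ.filter (fun g => F g = f), π g) / m k (s + 1), fun f => ?_,
    fun f hf => ?_, fun x y hxy => ?_, ?_⟩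
  · exact div_nonneg (sum_nonneg fun g _ => π0 g) mp.le
  · beta_reduce
    rw [sum_eq_zero, zero_div]
    intro g hg
    exact (hf ((mem_filter.1 hg).2 ▸ fun x y h => sup_mono h)).elim
  · obtain ⟨i, hi, hi'⟩ := not_subset.1 hxy
    have c : x.1.card ≤ k := by rcases x.2 with h | h <;> omega
    obtain ⟨S, h1, h2, h3⟩ := exists_subsuperset_card_eq (s := x.1) (t := univ.erase i) (n := k)
      (fun j hj => mem_erase.2 ⟨by rintro rfl; exact hi' hj, mem_univ _⟩) c (by simp; omega)
    have iS : i ∉ S := fun h => (mem_erase.1 (h2 h)).1 rfl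
    rw [← sum_div, le_div_iff₀ mp, one_mul, ← p2]
    have e := prob_event (fun a : Fin (s + 2) => p a) p1' S i iS
    have e2 : ∑ a : Fin (s + 2), p a * (∑ b ∈ univ.filter (fun b : Fin (s + 2) => b < a), p b) ^ S.card
        = ∑ a ∈ range (s + 1 + 1), p a * (∑ b ∈ range a, p b) ^ k := by
      rw [← Fin.sum_univ_eq_sum_range (fun a => p a * (∑ b ∈ range a, p b) ^ k), h3]
      refine sum_congr rfl fun a _ => ?_
      congr 2
      simp only [sum_filter, Fin.lt_def]
      rw [Fin.sum_univ_eq_sum_range (fun b => if b < a.val then p b else 0), ← sum_filter]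
      congr 1
      ext b
      simp only [mem_filter, mem_range]
      have := a.2
      omega
    rw [← e2, ← e, sum_fiberwise_eq_sum_filter]
    refine sum_le_sum_of_subset_of_nonneg (fun g hg => ?_) fun g _ _ => π0 g
    have hg := (mem_filter.1 hg).2
    obtain ⟨j, hj⟩ := card_pos.1 (show 0 < S.card by omega)
    simp only [mem_filter, mem_univ, true_and, F]
    refine lt_of_le_of_lt (sup_mono h1) (lt_of_lt_of_le ?_ (le_sup hi))
    exact (Finset.sup_lt_iff (lt_of_le_of_lt bot_le (hg j hj))).2 hg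
  · rw [← sum_div, sum_fiberwise]
    congr 1
    simp only [π]
    rw [← Fintype.piFinset_univ, ← prod_univ_sum (fun _ => univ) (fun _ (a : Fin (s + 2)) => p a)]
    simp [p1']

lemma lower (s k n : ℕ) (hk : 1 ≤ k) (hn : k < n) (w : (Q n k → Fin (s + 2)) → ℝ)
    (w0 : ∀ f, 0 ≤ w f) (w1 : ∀ f, ¬ Monotone f → w f = 0)
    (w2 : ∀ x y : Q n k, ¬ y ≤ x →
      1 ≤ ∑ f ∈ univ.filter (fun f : Q n k → Fin (s + 2) => f x < f y), w f) :
    (1 - k / n) ^ k / m k (s + 1) ≤ ∑ f, w f := by
  classical
  have mp := m_pos k hk s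
  let sg : Fin n → Q n k := fun i => ⟨{i}, Or.inl (card_singleton i)⟩
  let X : Fin n → Finset (Q n k) := fun i => univ.filter (fun x => x.1.card = k ∧ i ∉ x.1)
  have hX : ∀ i, (n - 1).choose k ≤ (X i).card := by
    intro i
    have : (n - 1).choose k = (powersetCard k (univ.erase i)).card := by simp
    rw [this]
    refine le_trans (card_le_card fun S hS => ?_) (card_image_le (f := Subtype.val))
    obtain ⟨h1, h2⟩ := mem_powersetCard.1 hS
    exact mem_image.2 ⟨⟨S, Or.inr h2⟩, mem_filter.2 ⟨mem_univ _, h2,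
      fun h => (mem_erase.1 (h1 h)).1 rfl⟩, rfl⟩
  have h1 : (n : ℝ) * (n - 1).choose k ≤
      ∑ f, w f * ∑ i, (((X i).filter (fun x => f x < f (sg i))).card : ℝ) := by
    calc (n : ℝ) * (n - 1).choose k = ∑ _i : Fin n, ((n - 1).choose k : ℝ) := by simp
      _ ≤ ∑ i, ∑ x ∈ X i, ∑ f ∈ univ.filter (fun f : Q n k → Fin (s + 2) => f x < f (sg i)), w f := by
          refine sum_le_sum fun i _ => le_trans (b := ((X i).card : ℝ)) (by exact_mod_cast hX i) ?_
          have := card_nsmul_le_sum (X i) _ 1 (fun x hx => w2 x (sg i) (fun h =>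
            (mem_filter.1 hx).2.2 (h (mem_singleton_self i))))
          simpa using this
      _ = _ := by
          simp only [sum_filter, card_filter, mul_sum]
          push_cast
          simp only [mul_sum, mul_ite, mul_one, mul_zero]
          rw [sum_comm]
          exact sum_congr rfl fun i _ => sum_comm
  have h2 : ∀ f, w f * ∑ i, (((X i).filter (fun x => f x < f (sg i))).card : ℝ)
      ≤ w f * (m k (s + 1) * n ^ (k + 1) / k.factorial) := by
    intro f
    by_cases hf : Monotone f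
    swap
    · simp [w1 f hf]
    refine mul_le_mul_of_nonneg_left ?_ (w0 f)
    have l := levels k hk (fun i => (f (sg i)).val) (s + 1)
    have e : univ.filter (fun i => (f (sg i)).val < s + 1 + 1) = univ :=
      filter_true_of_mem fun i _ => (f (sg i)).2
    rw [e, card_univ, Fintype.card_fin] at l
    rw [le_div_iff₀ (by positivity), sum_mul]
    refine le_trans (sum_le_sum fun i _ => ?_) l
    have a : ((X i).filter (fun x => f x < f (sg i))).card
        ≤ (univ.filter (fun j => (f (sg j)).val < (f (sg i)).val)).card.choose k := by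
      rw [← card_powersetCard]
      apply card_le_card_of_injOn Subtype.val _ Subtype.val_injective.injOn
      intro x hx
      simp only [X, coe_filter, mem_filter, mem_univ, true_and, Set.mem_ofPred_eq] at hx
      refine mem_powersetCard.2 ⟨fun j hj => mem_filter.2 ⟨mem_univ _, ?_⟩, hx.1.1⟩
      exact lt_of_le_of_lt (hf (show sg j ≤ x from singleton_subset_iff.2 hj)) hx.2
    have b := Nat.descFactorial_le_pow (univ.filter (fun j => (f (sg j)).val < (f (sg i)).val)).card k
    rw [Nat.descFactorial_eq_factorial_mul_choose] at b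
    exact_mod_cast le_trans (Nat.mul_le_mul_right _ a) (by rw [mul_comm]; exact b)
  have h3 := h1.trans (sum_le_sum fun f _ => h2 f)
  rw [← sum_mul, ← mul_div_assoc, le_div_iff₀ (by positivity)] at h3
  have h4 : ((n : ℝ) - k) ^ k ≤ ((n - 1).choose k : ℝ) * k.factorial := by
    have := Nat.pow_sub_le_descFactorial (n - 1) k
    rw [Nat.descFactorial_eq_factorial_mul_choose, show n - 1 + 1 - k = n - k by omega] at this
    rw [← Nat.cast_sub hn.le, mul_comm]
    exact_mod_cast this
  have n0 : (0 : ℝ) < n := by exact_mod_cast (show 0 < n by omega)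
  have e : (1 - (k : ℝ) / n) ^ k = (n * ((n : ℝ) - k) ^ k) / n ^ (k + 1) := by
    rw [one_sub_div n0.ne', div_pow]; field_simp; ring
  rw [e, div_div, div_le_iff₀ (by positivity)]
  nlinarith [mul_le_mul_of_nonneg_left h4 n0.le]

theorem result (t k : ℕ) (ht : 2 ≤ t) (hk : 1 ≤ k) :
    Tendsto (fun n => fdim t (Q n k)) atTop (𝓝 (1 / m k (t - 1))) := by
  obtain ⟨s, rfl⟩ : ∃ s, t = s + 2 := ⟨t - 2, by omega⟩
  rw [show s + 2 - 1 = s + 1 from rfl]
  have lim : Tendsto (fun n : ℕ => (1 - (k : ℝ) / n) ^ k / m k (s + 1)) atTop (𝓝 (1 / m k (s + 1))) := by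
    have := (((tendsto_const_div_atTop_nhds_zero_nat (k : ℝ)).const_sub 1).pow k).div_const
      (m k (s + 1))
    simpa using this
  refine tendsto_of_tendsto_of_tendsto_of_le_of_le' lim tendsto_const_nhds ?_ ?_
  · filter_upwards [eventually_gt_atTop k] with n hn
    obtain ⟨w, hw⟩ := upper s k n hk hn
    refine le_csInf ⟨_, w, hw⟩ ?_
    rintro _ ⟨w, a, b, c, rfl⟩
    exact lower s k n hk hn w a b c
  · filter_upwards [eventually_gt_atTop k] with n hn
    refine csInf_le ⟨0, ?_⟩ (upper s k n hk hn)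
    rintro _ ⟨w, a, -, -, rfl⟩
    exact sum_nonneg fun f _ => a f

end Pool.Agent.Results.MP_654fb7_co.FD
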